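import Pool.Agent.Helper18.RC.HL

/-!
All powers of `e` and of `π` are irrational.
-/

set_option autoImplicit false

namespace Pool.Agent.Helper18.KD

theorem transc_exp : Transcendental ℚ (Real.exp 1) := by
  intro h
  have h2 : IsAlgebraic ℚ (Complex.exp 1) := by
    have h3 : IsAlgebraic ℚ ((algebraMap ℝ ℂ) (Real.exp 1)) := h.algebraMap
    have h4 : (algebraMap ℝ ℂ) (Real.exp 1) = Complex.exp 1 := by
      simp
    rwa [h4] at h3
  exact RC.hermite_lindemann one_ne_zero isAlgebraic_one h2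

theorem transc_pi : Transcendental ℚ Real.pi := by
  intro h
  have h1 : IsAlgebraic ℚ ((Real.pi : ℂ)) := h.algebraMap (A := ℂ)
  have hI : IsAlgebraic ℚ Complex.I := by
    refine ⟨Polynomial.X ^ 2 + Polynomial.C 1, ?_, ?_⟩
    · intro h0
      have := congrArg (fun p => Polynomial.coeff p 2) h0
      simp [Polynomial.coeff_one] at this
    · simp
  have h2 : IsAlgebraic ℚ ((Real.pi : ℂ) * Complex.I) := h1.mul hI
  have h3 : IsAlgebraic ℚ (Complex.exp ((Real.pi : ℂ) * Complex.I)) := by
    rw [Complex.exp_pi_mul_I]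
    exact isAlgebraic_one.neg
  refine RC.hermite_lindemann ?_ h2 h3
  exact mul_ne_zero (by exact_mod_cast Real.pi_ne_zero) Complex.I_ne_zero

theorem irr_of_transcendental {x : ℝ} (h : Transcendental ℚ x) (r : ℕ) (hr : 1 ≤ r) : Irrational (x ^ r) := by
  rintro ⟨q, hq⟩
  have h1 : Transcendental ℚ (x ^ r) := h.pow (by omega)
  apply h1
  rw [← hq]
  exact isAlgebraic_algebraMap q

theorem irr_exp (r : ℕ) (hr : 1 ≤ r) : Irrational (Real.exp 1 ^ r) := irr_of_transcendental transc_exp r hr

theorem irr_pi (r : ℕ) (hr : 1 ≤ r) : Irrational (Real.pi ^ r) := irr_of_transcendental transc_pi r hr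

end Pool.Agent.Helper18.KD
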