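import Pool.Agent.Helper18.KD.Mass

/-!
Project KD, block K2: mass distribution on nested partitions, the lower bound.
-/

set_option autoImplicit false

namespace Pool.Agent.Helper18.KD

open MeasureTheory Set Filter Topology Pool.Agent.Helper78.KD

variable {T : Tr} {m : ℕ → ℕ → ℝ}

/-- quantiles of good points -/
def gd (T : Tr) (m : ℕ → ℕ → ℝ) (Bad : ℕ → Finset ℕ) (k₁ : ℕ) : Set ℝ :=
  {w | w ∈ Ico (0 : ℝ) 1 ∧ ∀ k, k₁ ≤ k → idx T m k w ∉ Bad k}

theorem idx_meas (k : ℕ) : Measurable (idx T m k) := (idx_mono k).measurable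

theorem gd_meas (Bad : ℕ → Finset ℕ) (k₁ : ℕ) : MeasurableSet (gd T m Bad k₁) := by
  have h1 : gd T m Bad k₁ = Ico (0 : ℝ) 1 ∩ ⋂ k, ⋂ (_ : k₁ ≤ k), (idx T m k) ⁻¹' {i | i ∉ Bad k} := by
    ext w
    simp only [gd, Set.mem_ofPred_eq, Set.mem_inter_iff, Set.mem_iInter, Set.mem_preimage]
  rw [h1]
  exact measurableSet_Ico.inter (MeasurableSet.iInter fun k => MeasurableSet.iInter fun _ =>
    idx_meas k (MeasurableSet.of_discrete))

theorem vol_idx (hm0 : m 0 0 = 1) (hsum : ∀ k i, i < T.N k → ∑ j ∈ T.ch k i, m (k + 1) j = m k i) (k i : ℕ) :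
    volume {w : ℝ | w ∈ Ico (0 : ℝ) 1 ∧ idx T m k w = i} ≤ ENNReal.ofReal (m k i) := by
  have h1 : {w : ℝ | w ∈ Ico (0 : ℝ) 1 ∧ idx T m k w = i} ⊆ Ico (cum m k i) (cum m k (i + 1)) := by
    rintro w ⟨hw, rfl⟩
    exact ⟨idx_le k hw.1, lt_idx hm0 hsum k hw.2⟩
  refine (measure_mono h1).trans ?_
  rw [Real.volume_Ico, cum_succ, add_sub_cancel_left]

theorem vol_gd (hm0 : m 0 0 = 1) (hm : ∀ k i, i < T.N k → 0 ≤ m k i)
    (hsum : ∀ k i, i < T.N k → ∑ j ∈ T.ch k i, m (k + 1) j = m k i)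
    (Bad : ℕ → Finset ℕ) (hBad : ∀ k, Bad k ⊆ Finset.range (T.N k)) {b : ℕ → ℝ} (hb : Summable b)
    (hb1 : ∀ k, ∑ i ∈ Bad k, m k i ≤ b k) : ∃ k₁, ∀ k, k₁ ≤ k → volume (gd T m Bad k) ≠ 0 := by
  have hb0 : ∀ k, 0 ≤ b k := fun k => (Finset.sum_nonneg fun i hi =>
    hm k i (Finset.mem_range.1 (hBad k hi))).trans (hb1 k)
  have ht : Tendsto (fun k₁ => ∑' k, b (k + k₁)) atTop (𝓝 0) := tendsto_sum_nat_add b
  obtain ⟨k₁, hk₁⟩ := eventually_atTop.1 (ht.eventually (gt_mem_nhds (show (0 : ℝ) < 1 by norm_num)))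
  refine ⟨k₁, fun k hk h0 => ?_⟩
  have hcov : Ico (0 : ℝ) 1 ⊆ gd T m Bad k ∪ ⋃ n : ℕ, ⋃ i ∈ Bad (n + k), {w : ℝ | w ∈ Ico (0 : ℝ) 1 ∧ idx T m (n + k) w = i} := by
    intro w hw
    by_cases h : ∀ n, k ≤ n → idx T m n w ∉ Bad n
    · exact Or.inl ⟨hw, h⟩
    · push Not at h
      obtain ⟨n, hn, hn2⟩ := h
      obtain ⟨n', rfl⟩ : ∃ n', n = n' + k := ⟨n - k, by omega⟩
      right
      simp only [Set.mem_iUnion]
      exact ⟨n', idx T m (n' + k) w, hn2, hw, rfl⟩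
  have h1 : volume (Ico (0 : ℝ) 1) ≤ ENNReal.ofReal (∑' n, b (n + k)) := by
    refine (measure_mono hcov).trans ((measure_union_le _ _).trans ?_)
    rw [h0, zero_add]
    refine (measure_iUnion_le _).trans ?_
    rw [ENNReal.ofReal_tsum_of_nonneg (fun n => hb0 _) ((summable_nat_add_iff k).2 hb)]
    refine ENNReal.tsum_le_tsum fun n => ?_
    refine (measure_biUnion_finset_le _ _).trans ?_
    refine (Finset.sum_le_sum fun i _ => vol_idx hm0 hsum (n + k) i).trans ?_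
    rw [← ENNReal.ofReal_sum_of_nonneg fun i hi => hm _ i (Finset.mem_range.1 (hBad _ hi))]
    exact ENNReal.ofReal_le_ofReal (hb1 _)
  rw [Real.volume_Ico, sub_zero, ENNReal.ofReal_one, ENNReal.one_le_ofReal] at h1
  linarith [hk₁ k hk]

/-- the measure of an interval -/
theorem int_le (hm0 : m 0 0 = 1) (hm : ∀ k i, i < T.N k → 0 ≤ m k i)
    (hsum : ∀ k i, i < T.N k → ∑ j ∈ T.ch k i, m (k + 1) j = m k i) {ℓ₁ C C' I : ℝ}
    (hC' : 0 < C')
    (hhi : ∀ k i, i < T.N k → T.len k i ≤ C * Real.exp (-(k * ℓ₁)))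
    (Bad : ℕ → Finset ℕ)
    (hgood : ∀ k i, i < T.N k → i ∉ Bad k → m k i ≤ C' * T.len k i * Real.exp (k * I)) (k₁ k : ℕ) (hk : k₁ ≤ k)
    {α β : ℝ} (hαβ : α ≤ β) :
    volume (gd T m Bad k₁ ∩ pt T m ⁻¹' Icc α β) ≤
      ENNReal.ofReal (C' * Real.exp (k * I) * ((β - α) + 2 * (C * Real.exp (-(k * ℓ₁))))) := by
  classical
  set A := (Finset.range (T.N k)).filter (fun i => T.t k i ≤ β ∧ α ≤ T.t k (i + 1)) with hA
  have hδ : 0 ≤ C * Real.exp (-(k * ℓ₁)) := (len_pos T k (Npos T k)).le.trans (hhi k 0 (Npos T k))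
  have h1 : gd T m Bad k₁ ∩ pt T m ⁻¹' Icc α β ⊆
      ⋃ i ∈ A.filter (fun i => i ∉ Bad k), {w : ℝ | w ∈ Ico (0 : ℝ) 1 ∧ idx T m k w = i} := by
    rintro w ⟨⟨hw, hb⟩, hx⟩
    simp only [Set.mem_iUnion]
    have h2 := pt_mem hm0 hm hsum k hw.1 hw.2
    refine ⟨idx T m k w, Finset.mem_filter.2 ⟨?_, hb k hk⟩, hw, rfl⟩
    rw [hA, Finset.mem_filter, Finset.mem_range]
    exact ⟨idx_lt k w, h2.1.trans hx.2, hx.1.trans h2.2⟩
  refine (measure_mono h1).trans ((measure_biUnion_finset_le _ _).trans ?_)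
  refine (Finset.sum_le_sum fun i _ => vol_idx hm0 hsum k i).trans ?_
  rw [← ENNReal.ofReal_sum_of_nonneg fun i hi => hm _ i (by
    have := (Finset.mem_filter.1 (Finset.mem_filter.1 hi).1).1
    exact Finset.mem_range.1 this)]
  apply ENNReal.ofReal_le_ofReal
  have h3 := len_meet T k hαβ hδ (hhi k)
  rw [← hA] at h3
  calc ∑ i ∈ A.filter (fun i => i ∉ Bad k), m k i ≤ ∑ i ∈ A.filter (fun i => i ∉ Bad k), C' * T.len k i * Real.exp (k * I) := by
        refine Finset.sum_le_sum fun i hi => ?_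
        have h4 := Finset.mem_filter.1 hi
        exact hgood k i (Finset.mem_range.1 (Finset.mem_filter.1 h4.1).1) h4.2
    _ ≤ ∑ i ∈ A, C' * T.len k i * Real.exp (k * I) := by
        refine Finset.sum_le_sum_of_subset_of_nonneg (Finset.filter_subset _ _) fun i hi _ => ?_
        have := (len_pos T k (Finset.mem_range.1 (Finset.mem_filter.1 hi).1)).le
        positivity
    _ = C' * Real.exp (k * I) * ∑ i ∈ A, T.len k i := by
        rw [Finset.mul_sum]
        exact Finset.sum_congr rfl fun i _ => by ring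
    _ ≤ _ := mul_le_mul_of_nonneg_left h3 (by positivity)

/-- mass distribution on the nested partitions -/
theorem lower_mass (T : Tr) (m : ℕ → ℕ → ℝ) (hm0 : m 0 0 = 1) (hm : ∀ k i, i < T.N k → 0 ≤ m k i)
    (hsum : ∀ k i, i < T.N k → ∑ j ∈ T.ch k i, m (k + 1) j = m k i) {ℓ₁ C C' I : ℝ} (hℓ₁ : 0 < ℓ₁) (hC : 0 < C)
    (hC' : 0 < C') (hI : 0 ≤ I)
    (hhi : ∀ k i, i < T.N k → T.len k i ≤ C * Real.exp (-(k * ℓ₁)))
    (Bad : ℕ → Finset ℕ) (hBad : ∀ k, Bad k ⊆ Finset.range (T.N k)) {b : ℕ → ℝ} (hb : Summable b)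
    (hb1 : ∀ k, ∑ i ∈ Bad k, m k i ≤ b k)
    (hgood : ∀ k i, i < T.N k → i ∉ Bad k → m k i ≤ C' * T.len k i * Real.exp (k * I))
    (E : Set ℝ) (hE : ∀ x : ℝ, (∃ k₁, ∀ k, k₁ ≤ k → ∃ i < T.N k, i ∉ Bad k ∧ x ∈ T.cell k i) → x ∈ E) :
    ENNReal.ofReal (1 - I / ℓ₁) ≤ dimH E := by
  rcases le_or_gt (1 - I / ℓ₁) 0 with hs | hs
  · rw [ENNReal.ofReal_eq_zero.2 hs]
    exact zero_le
  have hIl : I < ℓ₁ := by
    have : I / ℓ₁ < 1 := by linarith
    exact (div_lt_one hℓ₁).1 this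
  obtain ⟨k₁, hk₁⟩ := vol_gd hm0 hm hsum Bad hBad hb hb1
  have hG0 := hk₁ k₁ le_rfl
  set G := gd T m Bad k₁ with hG
  have hGm : MeasurableSet G := gd_meas Bad k₁
  set X := pt T m with hX
  have hXm : Measurable X := pt_mono.measurable
  set ν : Measure ℝ := (volume.restrict G).map X with hν
  have hνIcc : ∀ α β : ℝ, ν (Icc α β) = volume (G ∩ X ⁻¹' Icc α β) := by
    intro α β
    rw [hν, Measure.map_apply hXm measurableSet_Icc, Measure.restrict_apply (hXm measurableSet_Icc), Set.inter_comm]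
  set s : ℝ := 1 - I / ℓ₁ with hsdef
  -- the constant
  set D : ℝ := C' * 3 * (Real.exp ℓ₁ * C) ^ (I / ℓ₁) with hD
  have hD0 : 0 < D := by positivity
  set r₀ : ℝ := C * Real.exp (-(k₁ * ℓ₁)) with hr₀
  have hr₀0 : 0 < r₀ := by positivity
  -- Frostman bound for intervals
  have hfr : ∀ α β : ℝ, α < β → β - α ≤ r₀ → ν (Icc α β) ≤ ENNReal.ofReal (D * (β - α) ^ s) := by
    intro α β hαβ hle
    set δ := β - α with hδ
    have hδ0 : 0 < δ := by rw [hδ]; linarith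
    have hCδ : 0 ≤ Real.log (C / δ) / ℓ₁ ∨ Real.log (C / δ) / ℓ₁ < 0 := le_or_gt _ _
    set k : ℕ := ⌈Real.log (C / δ) / ℓ₁⌉₊ with hk
    have hlow : (k₁ : ℝ) ≤ Real.log (C / δ) / ℓ₁ := by
      rw [le_div_iff₀ hℓ₁, Real.le_log_iff_exp_le (by positivity), le_div_iff₀ hδ0]
      calc Real.exp (k₁ * ℓ₁) * δ ≤ Real.exp (k₁ * ℓ₁) * r₀ := by gcongr
        _ = C := by
          rw [hr₀, mul_left_comm, ← Real.exp_add, add_neg_cancel, Real.exp_zero, mul_one]
    have h0 : 0 ≤ Real.log (C / δ) / ℓ₁ := (Nat.cast_nonneg _).trans hlow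
    have hkk : k₁ ≤ k := by
      have h1 := Nat.le_ceil (Real.log (C / δ) / ℓ₁)
      rw [← hk] at h1
      exact_mod_cast hlow.trans h1
    have hk1 : Real.log (C / δ) ≤ k * ℓ₁ := by
      have h1 := Nat.le_ceil (Real.log (C / δ) / ℓ₁)
      rwa [← hk, div_le_iff₀ hℓ₁] at h1
    have hk2 : (k : ℝ) * ℓ₁ ≤ Real.log (C / δ) + ℓ₁ := by
      have h1 := (Nat.ceil_lt_add_one h0).le
      rw [← hk] at h1
      have h2 := mul_le_mul_of_nonneg_right h1 hℓ₁.le
      have h3 : (Real.log (C / δ) / ℓ₁ + 1) * ℓ₁ = Real.log (C / δ) + ℓ₁ := by field_simp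
      linarith
    have h1 := int_le hm0 hm hsum hC' hhi Bad hgood k₁ k hkk hαβ.le
    rw [hνIcc]
    refine h1.trans (ENNReal.ofReal_le_ofReal ?_)
    have h2 : C * Real.exp (-(k * ℓ₁)) ≤ δ := by
      have h3 : Real.exp (-(k * ℓ₁)) ≤ Real.exp (-Real.log (C / δ)) := Real.exp_le_exp.2 (by linarith)
      rw [Real.exp_neg (Real.log (C / δ)), Real.exp_log (by positivity)] at h3
      calc C * Real.exp (-(k * ℓ₁)) ≤ C * (C / δ)⁻¹ := by gcongr
        _ = δ := by field_simp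
    have h4 : Real.exp (k * I) ≤ (Real.exp ℓ₁ * C) ^ (I / ℓ₁) * δ ^ (-(I / ℓ₁)) := by
      have h5 : (k : ℝ) * I = (k * ℓ₁) * (I / ℓ₁) := by field_simp
      have h6 : (Real.exp ℓ₁ * C) ^ (I / ℓ₁) * δ ^ (-(I / ℓ₁)) = Real.exp ((Real.log (C / δ) + ℓ₁) * (I / ℓ₁)) := by
        rw [Real.rpow_neg hδ0.le, ← Real.inv_rpow hδ0.le, ← Real.mul_rpow (by positivity) (by positivity),
          Real.rpow_def_of_pos (by positivity), Real.log_mul (by positivity) (by positivity),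
          Real.log_mul (by positivity) (by positivity), Real.log_exp, Real.log_div (by positivity) (by positivity),
          Real.log_inv]
        congr 1
        ring
      rw [h5, h6, Real.exp_le_exp]
      exact mul_le_mul_of_nonneg_right hk2 (div_nonneg hI hℓ₁.le)
    calc C' * Real.exp (k * I) * (δ + 2 * (C * Real.exp (-(k * ℓ₁))))
        ≤ C' * ((Real.exp ℓ₁ * C) ^ (I / ℓ₁) * δ ^ (-(I / ℓ₁))) * (δ + 2 * δ) := by gcongr
      _ = D * (δ ^ (-(I / ℓ₁)) * δ ^ (1 : ℝ)) := by rw [hD, Real.rpow_one]; ring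
      _ = D * δ ^ s := by
        rw [← Real.rpow_add hδ0, hsdef]
        congr 2
        ring
  -- points
  have hpt : ∀ x : ℝ, ν {x} = 0 := by
    intro x
    have h1 : ∀ k, k₁ ≤ k → ν {x} ≤ ENNReal.ofReal (C' * 2 * C * Real.exp (-(ℓ₁ - I)) ^ k) := by
      intro k hk
      have h2 := int_le hm0 hm hsum hC' hhi Bad hgood k₁ k hk (le_refl x)
      rw [← Set.Icc_self x, hνIcc]
      refine h2.trans (ENNReal.ofReal_le_ofReal (le_of_eq ?_))
      rw [← Real.exp_nat_mul, sub_self, zero_add]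
      have h3 : Real.exp (k * I) * Real.exp (-(k * ℓ₁)) = Real.exp (k * -(ℓ₁ - I)) := by
        rw [← Real.exp_add]
        congr 1
        ring
      calc C' * Real.exp (k * I) * (2 * (C * Real.exp (-(k * ℓ₁)))) = C' * 2 * C * (Real.exp (k * I) * Real.exp (-(k * ℓ₁))) := by ring
        _ = _ := by rw [h3]
    have h4 : Tendsto (fun k : ℕ => ENNReal.ofReal (C' * 2 * C * Real.exp (-(ℓ₁ - I)) ^ k)) atTop (𝓝 0) := by
      rw [← ENNReal.ofReal_zero]
      apply ENNReal.tendsto_ofReal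
      have h5 : Tendsto (fun k : ℕ => Real.exp (-(ℓ₁ - I)) ^ k) atTop (𝓝 0) :=
        tendsto_pow_atTop_nhds_zero_of_lt_one (Real.exp_pos _).le (by rw [Real.exp_lt_one_iff]; linarith)
      have h6 := h5.const_mul (C' * 2 * C)
      rwa [mul_zero] at h6
    exact le_antisymm (ge_of_tendsto h4 (eventually_atTop.2 ⟨k₁, h1⟩)) zero_le
  -- the comparison with the Hausdorff measure
  set c : ENNReal := ENNReal.ofReal D with hc
  have hc0 : c ≠ 0 := by
    rw [hc, Ne, ENNReal.ofReal_eq_zero, not_le]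
    exact hD0
  have hct : c ≠ ⊤ := ENNReal.ofReal_ne_top
  have hle : c⁻¹ • ν ≤ Measure.hausdorffMeasure s := by
    refine Measure.le_hausdorffMeasure _ _ (ENNReal.ofReal r₀) (ENNReal.ofReal_pos.2 hr₀0) fun t ht => ?_
    rw [Measure.smul_apply, smul_eq_mul, ENNReal.inv_mul_le_iff hc0 hct]
    rcases t.eq_empty_or_nonempty with he | hne
    · rw [he, measure_empty]
      exact zero_le
    have htop : Metric.ediam t ≠ ⊤ := ne_top_of_le_ne_top ENNReal.ofReal_ne_top ht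
    have hbd : Bornology.IsBounded t := Metric.isBounded_iff_ediam_ne_top.2 htop
    obtain ⟨x, hx⟩ := hne
    have hsub : t ⊆ Icc (sInf t) (sSup t) := fun y hy => ⟨csInf_le hbd.bddBelow hy, le_csSup hbd.bddAbove hy⟩
    have hdiam : Metric.ediam t = ENNReal.ofReal (sSup t - sInf t) := by
      rw [← ENNReal.ofReal_toReal htop]
      congr 1
      exact Real.diam_eq hbd
    have hle2 : sInf t ≤ sSup t := (hsub hx).1.trans (hsub hx).2
    rcases hle2.eq_or_lt with h | h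
    · have h1 : t ⊆ {x} := by
        intro y hy
        have h2 := hsub hy
        have h3 := hsub hx
        rw [Set.mem_singleton_iff]
        rw [← h] at h2 h3
        linarith [h2.1, h2.2, h3.1, h3.2]
      rw [measure_mono_null h1 (hpt x)]
      exact zero_le
    · refine (measure_mono hsub).trans ?_
      have hr : sSup t - sInf t ≤ r₀ := by
        rw [hdiam] at ht
        exact (ENNReal.ofReal_le_ofReal_iff hr₀0.le).1 ht
      refine (hfr _ _ h hr).trans (le_of_eq ?_)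
      rw [hdiam, hc, ENNReal.ofReal_rpow_of_pos (by linarith), ← ENNReal.ofReal_mul hD0.le]
  -- positivity
  have hνE : ν E ≠ 0 := by
    intro h0
    rw [← measure_toMeasurable] at h0
    rw [hν, Measure.map_apply hXm (measurableSet_toMeasurable _ _), Measure.restrict_apply (hXm (measurableSet_toMeasurable _ _))] at h0
    have hsub : G ⊆ X ⁻¹' toMeasurable ν E ∩ G := by
      intro w hw
      refine ⟨?_, hw⟩
      refine subset_toMeasurable _ _ (hE _ ⟨k₁, fun k hk => ⟨idx T m k w, idx_lt k w, hw.2 k hk, ?_⟩⟩)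
      exact pt_mem hm0 hm hsum k hw.1.1 hw.1.2
    exact hG0 (measure_mono_null hsub h0)
  have hH : Measure.hausdorffMeasure s E ≠ 0 := by
    intro h0
    have h1 := hle E
    rw [h0, Measure.smul_apply, smul_eq_mul, nonpos_iff_eq_zero, mul_eq_zero] at h1
    rcases h1 with h1 | h1
    · exact hct (ENNReal.inv_eq_zero.1 h1)
    · exact hνE h1
  have hcoe : ((s.toNNReal : NNReal) : ℝ) = s := Real.coe_toNNReal _ hs.le
  rw [← hcoe] at hH
  exact le_dimH_of_hausdorffMeasure_ne_zero hH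

end Pool.Agent.Helper18.KD
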