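import Pool.Agent.Helper18.KD.LowerMass

/-!
Project KD, block K2: lower bound for the dimension from the exponential moments.
-/

set_option autoImplicit false

namespace Pool.Agent.Helper18.KD

open MeasureTheory Set Filter Topology Pool.Agent.Helper78.KD

open Classical in
/-- the parent of a cell -/
noncomputable def par (T : Tr) (k j : ℕ) : ℕ := Nat.findGreatest (fun i => T.J k i ≤ j) (T.N k - 1)

theorem par_lt (T : Tr) (k j : ℕ) : par T k j < T.N k := by
  classical
  have h1 : par T k j ≤ T.N k - 1 := Nat.findGreatest_le _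
  have := Npos T k
  omega

theorem par_eq (T : Tr) (k : ℕ) {i j : ℕ} (hi : i < T.N k) (hj : j ∈ T.ch k i) : par T k j = i := by
  classical
  unfold Tr.ch at hj
  rw [Finset.mem_Ico] at hj
  have h1 : i ≤ par T k j := Nat.le_findGreatest (P := fun i => T.J k i ≤ j) (by omega) hj.1
  have h2 : T.J k (par T k j) ≤ j :=
    Nat.findGreatest_spec (P := fun i => T.J k i ≤ j) (m := i) (by omega) hj.1
  by_contra hne
  have h3 : i + 1 ≤ par T k j := by omega
  have h4 := J_mono T k h3 (par_lt T k j).le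
  omega

/-- partition function -/
noncomputable def Z (T : Tr) (M : ℕ → ℕ → ℝ) (θ : ℝ) (k i : ℕ) : ℝ :=
  ∑ j ∈ T.ch k i, T.len (k + 1) j * Real.exp (θ * (M (k + 1) j - M k i))

theorem ch_lt (T : Tr) {k i j : ℕ} (hi : i < T.N k) (hj : j ∈ T.ch k i) : j < T.N (k + 1) := by
  unfold Tr.ch at hj
  rw [Finset.mem_Ico] at hj
  exact lt_of_lt_of_le hj.2 (J_le T k hi)

theorem Z_pos (T : Tr) (M : ℕ → ℕ → ℝ) (θ : ℝ) {k i : ℕ} (hi : i < T.N k) : 0 < Z T M θ k i := by
  unfold Z
  refine Finset.sum_pos (fun j hj => mul_pos (len_pos T _ (ch_lt T hi hj)) (Real.exp_pos _)) ?_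
  unfold Tr.ch
  exact Finset.nonempty_Ico.2 (T.Jlt k i hi)

/-- tilted masses -/
noncomputable def tm (T : Tr) (M : ℕ → ℕ → ℝ) (θ : ℝ) : ℕ → ℕ → ℝ
  | 0, _ => 1
  | k + 1, j => tm T M θ k (par T k j) *
      (T.len (k + 1) j * Real.exp (θ * (M (k + 1) j - M k (par T k j))) / Z T M θ k (par T k j))

theorem tm_succ (T : Tr) (M : ℕ → ℕ → ℝ) (θ : ℝ) {k i j : ℕ} (hi : i < T.N k) (hj : j ∈ T.ch k i) :
    tm T M θ (k + 1) j = tm T M θ k i * (T.len (k + 1) j * Real.exp (θ * (M (k + 1) j - M k i)) / Z T M θ k i) := by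
  simp only [tm]
  rw [par_eq T k hi hj]

theorem tm_nonneg (T : Tr) (M : ℕ → ℕ → ℝ) (θ : ℝ) : ∀ k i, i < T.N k → 0 ≤ tm T M θ k i := by
  intro k
  induction k with
  | zero => intro i _; simp [tm]
  | succ k ih =>
    intro j hj
    simp only [tm]
    have h1 := ih (par T k j) (par_lt T k j)
    have h2 := Z_pos T M θ (par_lt T k j)
    have h3 := len_pos T (k + 1) hj
    positivity

theorem tm_sum (T : Tr) (M : ℕ → ℕ → ℝ) (θ : ℝ) : ∀ k i, i < T.N k →
    ∑ j ∈ T.ch k i, tm T M θ (k + 1) j = tm T M θ k i := by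
  intro k i hi
  rw [Finset.sum_congr rfl fun j hj => tm_succ T M θ hi hj, ← Finset.mul_sum, ← Finset.sum_div]
  have h1 := Z_pos T M θ hi
  change tm T M θ k i * (Z T M θ k i / Z T M θ k i) = _
  rw [div_self h1.ne', mul_one]

theorem exists_par (T : Tr) (k j : ℕ) (hj : j < T.N (k + 1)) : ∃ i, i < T.N k ∧ j ∈ T.ch k i := by
  classical
  refine ⟨par T k j, par_lt T k j, ?_⟩
  unfold Tr.ch
  rw [Finset.mem_Ico]
  refine ⟨Nat.findGreatest_spec (P := fun i => T.J k i ≤ j) (m := 0) (Nat.zero_le _) (by rw [T.J0]; exact Nat.zero_le _), ?_⟩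
  by_contra hcon
  push Not at hcon
  have h1 := par_lt T k j
  rcases Nat.lt_or_ge (par T k j + 1) (T.N k) with h | h
  · have h2 : par T k j + 1 ≤ par T k j := Nat.le_findGreatest (P := fun i => T.J k i ≤ j) (by omega) hcon
    omega
  · have h3 : par T k j + 1 = T.N k := by omega
    rw [h3, T.JN] at hcon
    omega

/-- the tilted masses are dominated by the lengths -/
theorem tm_le (T : Tr) (M : ℕ → ℕ → ℝ) {θ Λ : ℝ} (hM : T.MGFge M θ Λ) : ∀ k i, i < T.N k →
    tm T M θ k i ≤ T.len k i / T.len 0 0 * Real.exp (θ * (M k i - M 0 0) - k * Λ) := by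
  have hl0 : 0 < T.len 0 0 := len_pos T 0 (Npos T 0)
  intro k
  induction k with
  | zero =>
    intro i hi
    have h0 : i = 0 := by rw [T.hN] at hi; omega
    subst h0
    simp [tm, hl0.ne']
  | succ k ih =>
    intro j hj
    obtain ⟨i, hi, hji⟩ := exists_par T k j hj
    rw [tm_succ T M θ hi hji]
    have h1 := ih i hi
    have hl := len_pos T k hi
    have hlj := len_pos T (k + 1) hj
    have hZ : T.len k i * Real.exp Λ ≤ Z T M θ k i := hM k i hi
    have hZ0 : 0 < T.len k i * Real.exp Λ := by positivity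
    calc tm T M θ k i * (T.len (k + 1) j * Real.exp (θ * (M (k + 1) j - M k i)) / Z T M θ k i)
        ≤ (T.len k i / T.len 0 0 * Real.exp (θ * (M k i - M 0 0) - k * Λ)) *
          (T.len (k + 1) j * Real.exp (θ * (M (k + 1) j - M k i)) / (T.len k i * Real.exp Λ)) := by
          refine mul_le_mul h1 ?_ (div_nonneg (by positivity) (Z_pos T M θ hi).le) (by positivity)
          exact div_le_div_of_nonneg_left (by positivity) hZ0 hZ
      _ = T.len (k + 1) j / T.len 0 0 * (Real.exp (θ * (M k i - M 0 0) - k * Λ) *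
          Real.exp (θ * (M (k + 1) j - M k i)) * Real.exp (-Λ)) := by
          rw [Real.exp_neg]
          field_simp
      _ = T.len (k + 1) j / T.len 0 0 * Real.exp (θ * (M (k + 1) j - M 0 0) - ((k + 1 : ℕ) : ℝ) * Λ) := by
          rw [← Real.exp_add, ← Real.exp_add]
          congr 2
          push_cast
          ring

/-- exponential moments under the tilted masses -/
theorem tm_exp (T : Tr) (M : ℕ → ℕ → ℝ) {θ τ Λ Λ' : ℝ} (hM : T.MGFge M θ Λ) (hM' : T.MGFle M (θ + τ) Λ') (k : ℕ) :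
    ∑ i ∈ Finset.range (T.N k), tm T M θ k i * Real.exp (τ * (M k i - M 0 0)) ≤ Real.exp (k * (Λ' - Λ)) := by
  induction k with
  | zero =>
    rw [T.hN]
    simp [tm]
  | succ k ih =>
    rw [← T.JN k, sum_level T k _ _ le_rfl]
    have h1 : ∀ i ∈ Finset.range (T.N k), ∑ j ∈ T.ch k i, tm T M θ (k + 1) j * Real.exp (τ * (M (k + 1) j - M 0 0)) ≤
        tm T M θ k i * Real.exp (τ * (M k i - M 0 0)) * Real.exp (Λ' - Λ) := by
      intro i hi
      have hi' := Finset.mem_range.1 hi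
      have hl := len_pos T k hi'
      have hZ : T.len k i * Real.exp Λ ≤ Z T M θ k i := hM k i hi'
      have hZ0 : 0 < T.len k i * Real.exp Λ := by positivity
      have h2 : ∑ j ∈ T.ch k i, tm T M θ (k + 1) j * Real.exp (τ * (M (k + 1) j - M 0 0)) =
          tm T M θ k i * Real.exp (τ * (M k i - M 0 0)) *
            ((∑ j ∈ T.ch k i, T.len (k + 1) j * Real.exp ((θ + τ) * (M (k + 1) j - M k i))) / Z T M θ k i) := by
        rw [Finset.sum_div, Finset.mul_sum]
        refine Finset.sum_congr rfl fun j hj => ?_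
        rw [tm_succ T M θ hi' hj]
        have h3 : Real.exp (τ * (M (k + 1) j - M 0 0)) = Real.exp (τ * (M k i - M 0 0)) * Real.exp (τ * (M (k + 1) j - M k i)) := by
          rw [← Real.exp_add]
          congr 1
          ring
        have h4 : Real.exp ((θ + τ) * (M (k + 1) j - M k i)) =
            Real.exp (θ * (M (k + 1) j - M k i)) * Real.exp (τ * (M (k + 1) j - M k i)) := by
          rw [← Real.exp_add]
          congr 1
          ring
        rw [h3, h4]
        ring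
      rw [h2]
      refine mul_le_mul_of_nonneg_left ?_ (mul_nonneg (tm_nonneg T M θ k i hi') (Real.exp_pos _).le)
      calc (∑ j ∈ T.ch k i, T.len (k + 1) j * Real.exp ((θ + τ) * (M (k + 1) j - M k i))) / Z T M θ k i
          ≤ (T.len k i * Real.exp Λ') / (T.len k i * Real.exp Λ) :=
            div_le_div₀ (by positivity) (hM' k i hi') hZ0 hZ
        _ = Real.exp (Λ' - Λ) := by
            rw [Real.exp_sub]
            field_simp
    refine (Finset.sum_le_sum h1).trans ?_
    rw [← Finset.sum_mul]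
    refine (mul_le_mul_of_nonneg_right ih (Real.exp_pos _).le).trans (le_of_eq ?_)
    rw [← Real.exp_add]
    congr 1
    push_cast
    ring

/-- lower bound from the exponential moments -/
theorem lower_tree (T : Tr) (M : ℕ → ℕ → ℝ) {θ θ₁ θ₂ Λ Λ₁ Λ₂ h₁ h₂ ℓ₁ C : ℝ} (hθ : 0 < θ) (hθ₁ : 0 < θ₁) (hθ₂ : 0 < θ₂)
    (hℓ₁ : 0 < ℓ₁) (hC : 0 < C)
    (hhi : ∀ k i, i < T.N k → T.len k i ≤ C * Real.exp (-(k * ℓ₁)))
    (hM : T.MGFge M θ Λ) (hM₁ : T.MGFle M (θ + θ₁) Λ₁) (hM₂ : T.MGFle M (θ - θ₂) Λ₂)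
    (hlt₁ : Λ₁ - Λ - θ₁ * h₂ < 0) (hlt₂ : Λ₂ - Λ + θ₂ * h₁ < 0) (hI : 0 ≤ θ * h₂ - Λ) :
    ENNReal.ofReal (1 - (θ * h₂ - Λ) / ℓ₁) ≤
      dimH {x : ℝ | ∃ k₁ : ℕ, ∀ k, k₁ ≤ k → ∃ i < T.N k, x ∈ T.cell k i ∧ M 0 0 + h₁ * k ≤ M k i} := by
  classical
  have hl0 : 0 < T.len 0 0 := len_pos T 0 (Npos T 0)
  set Bad : ℕ → Finset ℕ := fun k => (Finset.range (T.N k)).filter
    (fun i => M k i - M 0 0 < h₁ * k ∨ h₂ * k < M k i - M 0 0) with hBad
  rw [sub_eq_add_neg] at hM₂
  have hgeo : ∀ x : ℝ, x < 0 → Summable fun k : ℕ => Real.exp (k * x) := by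
    intro x hx
    have h1 : ‖Real.exp x‖ < 1 := by
      rw [Real.norm_eq_abs, abs_of_pos (Real.exp_pos _), Real.exp_lt_one_iff]
      exact hx
    refine (summable_geometric_of_norm_lt_one h1).congr fun k => ?_
    rw [← Real.exp_nat_mul]
  refine lower_mass T (tm T M θ) rfl (tm_nonneg T M θ) (tm_sum T M θ) hℓ₁ hC
    (C' := 1 / T.len 0 0) (by positivity) hI hhi Bad (fun k => Finset.filter_subset _ _)
    (b := fun k : ℕ => Real.exp (k * (Λ₁ - Λ - θ₁ * h₂)) + Real.exp (k * (Λ₂ - Λ + θ₂ * h₁)))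
    ((hgeo _ hlt₁).add (hgeo _ hlt₂)) (fun k => ?_) (fun k i hi hib => ?_) _ ?_
  · -- the bad cells
    have h1 := tm_exp T M hM hM₁ k
    have h2 := tm_exp T M hM hM₂ k
    have h3 : ∑ i ∈ Bad k, tm T M θ k i ≤ ∑ i ∈ Finset.range (T.N k),
        (Real.exp (-(θ₁ * h₂ * k)) * (tm T M θ k i * Real.exp (θ₁ * (M k i - M 0 0))) +
          Real.exp (θ₂ * h₁ * k) * (tm T M θ k i * Real.exp (-θ₂ * (M k i - M 0 0)))) := by
      have hnn : ∀ i ∈ Finset.range (T.N k), 0 ≤ Real.exp (-(θ₁ * h₂ * k)) * (tm T M θ k i * Real.exp (θ₁ * (M k i - M 0 0))) +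
          Real.exp (θ₂ * h₁ * k) * (tm T M θ k i * Real.exp (-θ₂ * (M k i - M 0 0))) := by
        intro i hi
        have := tm_nonneg T M θ k i (Finset.mem_range.1 hi)
        positivity
      refine le_trans (Finset.sum_le_sum fun i hi => ?_)
        (Finset.sum_le_sum_of_subset_of_nonneg (Finset.filter_subset _ _) fun i hi _ => hnn i hi)
      have hi1 := Finset.mem_filter.1 hi
      have ht := tm_nonneg T M θ k i (Finset.mem_range.1 hi1.1)
      rcases hi1.2 with h | h
      · have h4 : 1 ≤ Real.exp (θ₂ * h₁ * k) * Real.exp (-θ₂ * (M k i - M 0 0)) := by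
          rw [← Real.exp_add, Real.one_le_exp_iff]
          nlinarith
        have h5 : 0 ≤ Real.exp (-(θ₁ * h₂ * k)) * (tm T M θ k i * Real.exp (θ₁ * (M k i - M 0 0))) := by positivity
        have h6 := mul_le_mul_of_nonneg_left h4 ht
        linarith
      · have h4 : 1 ≤ Real.exp (-(θ₁ * h₂ * k)) * Real.exp (θ₁ * (M k i - M 0 0)) := by
          rw [← Real.exp_add, Real.one_le_exp_iff]
          nlinarith
        have h5 : 0 ≤ Real.exp (θ₂ * h₁ * k) * (tm T M θ k i * Real.exp (-θ₂ * (M k i - M 0 0))) := by positivity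
        have h6 := mul_le_mul_of_nonneg_left h4 ht
        linarith
    refine h3.trans ?_
    rw [Finset.sum_add_distrib, ← Finset.mul_sum, ← Finset.mul_sum]
    refine add_le_add ?_ ?_
    · refine (mul_le_mul_of_nonneg_left h1 (Real.exp_pos _).le).trans (le_of_eq ?_)
      rw [← Real.exp_add]
      congr 1
      ring
    · refine (mul_le_mul_of_nonneg_left h2 (Real.exp_pos _).le).trans (le_of_eq ?_)
      rw [← Real.exp_add]
      congr 1
      ring
  · -- the good cells
    have h1 := tm_le T M hM k i hi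
    have h2 : M k i - M 0 0 ≤ h₂ * k := by
      by_contra hcon
      push Not at hcon
      exact hib (Finset.mem_filter.2 ⟨Finset.mem_range.2 hi, Or.inr hcon⟩)
    refine h1.trans ?_
    rw [div_mul_eq_mul_div, one_div_mul_eq_div, div_mul_eq_mul_div]
    refine div_le_div_of_nonneg_right (mul_le_mul_of_nonneg_left (Real.exp_le_exp.2 ?_) (len_pos T k hi).le) hl0.le
    have := mul_le_mul_of_nonneg_left h2 hθ.le
    linarith
  · rintro x ⟨k₁, hx⟩
    refine ⟨k₁, fun k hk => ?_⟩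
    obtain ⟨i, hi, hib, hxi⟩ := hx k hk
    refine ⟨i, hi, hxi, ?_⟩
    by_contra hcon
    push Not at hcon
    exact hib (Finset.mem_filter.2 ⟨Finset.mem_range.2 hi, Or.inl (by linarith)⟩)

end Pool.Agent.Helper18.KD
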