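import Pool.Agent.Helper78.KD.Defs

/-!
Project KD, block K2: mass distribution on nested partitions.
-/

set_option autoImplicit false

namespace Pool.Agent.Helper18.KD

open MeasureTheory Set Filter Topology Pool.Agent.Helper78.KD

theorem Npos (T : Tr) (k : ℕ) : 0 < T.N k := by
  induction k with
  | zero => rw [T.hN]; exact one_pos
  | succ k ih =>
    rw [← T.JN k]
    have h1 : ∀ n, n ≤ T.N k → n ≤ T.J k n := by
      intro n
      induction n with
      | zero => intro _; exact Nat.zero_le _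
      | succ n ihn =>
        intro h
        have h2 := T.Jlt k n (by omega)
        have h3 := ihn (by omega)
        omega
    have := h1 _ le_rfl
    omega

theorem J_mono (T : Tr) (k : ℕ) {i i' : ℕ} (h : i ≤ i') (h' : i' ≤ T.N k) : T.J k i ≤ T.J k i' := by
  induction i', h using Nat.le_induction with
  | base => exact le_rfl
  | succ n hn ih => exact (ih (by omega)).trans (T.Jlt k n (by omega)).le

theorem J_lt (T : Tr) (k : ℕ) {i i' : ℕ} (h : i < i') (h' : i' ≤ T.N k) : T.J k i < T.J k i' :=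
  lt_of_lt_of_le (T.Jlt k i (by omega)) (J_mono T k (by omega) h')

theorem J_le (T : Tr) (k : ℕ) {i : ℕ} (h : i ≤ T.N k) : T.J k i ≤ T.N (k + 1) := by
  rw [← T.JN k]
  exact J_mono T k h le_rfl

theorem t_mono (T : Tr) (k : ℕ) {i i' : ℕ} (h : i ≤ i') (h' : i' ≤ T.N k) : T.t k i ≤ T.t k i' := by
  induction i', h using Nat.le_induction with
  | base => exact le_rfl
  | succ n hn ih => exact (ih (by omega)).trans (T.lt k n (by omega)).le

theorem len_pos (T : Tr) (k : ℕ) {i : ℕ} (h : i < T.N k) : 0 < T.len k i := sub_pos.2 (T.lt k i h)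

theorem t_top (T : Tr) (k : ℕ) : T.t k (T.N k) = T.t 0 1 := by
  induction k with
  | zero => rw [T.hN]
  | succ k ih => rw [← T.JN k, T.ref k _ le_rfl, ih]

theorem t_le_top (T : Tr) (k : ℕ) {i : ℕ} (h : i ≤ T.N k) : T.t k i ≤ T.t 0 1 := by
  rw [← t_top T k]
  exact t_mono T k h le_rfl

/-- sums over a level are sums over the children -/
theorem sum_level (T : Tr) (k : ℕ) (f : ℕ → ℝ) (n : ℕ) (hn : n ≤ T.N k) :
    ∑ j ∈ Finset.range (T.J k n), f j = ∑ i ∈ Finset.range n, ∑ j ∈ T.ch k i, f j := by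
  induction n with
  | zero => rw [T.J0]; simp
  | succ n ih =>
    rw [Finset.sum_range_succ, ← ih (by omega)]
    unfold Tr.ch
    rw [Finset.range_eq_Ico, Finset.range_eq_Ico, Finset.sum_Ico_consecutive _ (Nat.zero_le _)
      (T.Jlt k n (by omega)).le]

/-- telescoping of the lengths -/
theorem sum_len (T : Tr) (k : ℕ) {p q : ℕ} (h : p ≤ q) :
    ∑ i ∈ Finset.Ico p q, T.len k i = T.t k q - T.t k p := by
  unfold Tr.len
  exact Finset.sum_Ico_sub (fun i => T.t k i) h

/-- total length of the cells which meet an interval -/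
theorem len_meet (T : Tr) (k : ℕ) {α β δ : ℝ} (hαβ : α ≤ β) (hδ : 0 ≤ δ) (hlen : ∀ i, i < T.N k → T.len k i ≤ δ) :
    ∑ i ∈ (Finset.range (T.N k)).filter (fun i => T.t k i ≤ β ∧ α ≤ T.t k (i + 1)), T.len k i ≤
      (β - α) + 2 * δ := by
  classical
  set A := (Finset.range (T.N k)).filter (fun i => T.t k i ≤ β ∧ α ≤ T.t k (i + 1)) with hA
  rcases A.eq_empty_or_nonempty with h | h
  · rw [h, Finset.sum_empty]
    linarith
  · set p := A.min' h with hp
    set q := A.max' h with hq
    have hpA : p ∈ A := A.min'_mem h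
    have hqA : q ∈ A := A.max'_mem h
    have hpq : p ≤ q := A.min'_le _ hqA
    have hsub : A ⊆ Finset.Ico p (q + 1) := by
      intro i hi
      rw [Finset.mem_Ico]
      exact ⟨A.min'_le _ hi, Nat.lt_succ_of_le (A.le_max' _ hi)⟩
    rw [hA, Finset.mem_filter, Finset.mem_range] at hpA hqA
    have h1 : ∑ i ∈ A, T.len k i ≤ ∑ i ∈ Finset.Ico p (q + 1), T.len k i := by
      refine Finset.sum_le_sum_of_subset_of_nonneg hsub fun i hi _ => ?_
      rw [Finset.mem_Ico] at hi
      exact (len_pos T k (by omega)).le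
    rw [sum_len T k (by omega)] at h1
    have h2 := hlen p hpA.1
    have h3 := hlen q hqA.1
    unfold Tr.len at h2 h3
    linarith [hpA.2.2, hqA.2.1]

section cum

variable (m : ℕ → ℕ → ℝ)

/-- cumulative masses -/
noncomputable def cum (k i : ℕ) : ℝ := ∑ j ∈ Finset.range i, m k j

theorem cum_zero (k : ℕ) : cum m k 0 = 0 := by simp [cum]

theorem cum_succ (k i : ℕ) : cum m k (i + 1) = cum m k i + m k i := by
  unfold cum
  rw [Finset.sum_range_succ]

variable {m}

theorem cum_mono {T : Tr} (hm : ∀ k i, i < T.N k → 0 ≤ m k i) (k : ℕ) {i i' : ℕ} (h : i ≤ i') (h' : i' ≤ T.N k) :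
    cum m k i ≤ cum m k i' := by
  induction i', h using Nat.le_induction with
  | base => exact le_rfl
  | succ n hn ih =>
    rw [cum_succ]
    have := hm k n (by omega)
    linarith [ih (by omega)]

theorem cum_J {T : Tr} (hsum : ∀ k i, i < T.N k → ∑ j ∈ T.ch k i, m (k + 1) j = m k i) (k : ℕ) {i : ℕ}
    (h : i ≤ T.N k) : cum m (k + 1) (T.J k i) = cum m k i := by
  unfold cum
  rw [sum_level T k _ i h]
  exact Finset.sum_congr rfl fun j hj => hsum k j (by have := Finset.mem_range.1 hj; omega)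

theorem cum_top {T : Tr} (hm0 : m 0 0 = 1) (hsum : ∀ k i, i < T.N k → ∑ j ∈ T.ch k i, m (k + 1) j = m k i) (k : ℕ) :
    cum m k (T.N k) = 1 := by
  induction k with
  | zero => rw [T.hN]; simp [cum, hm0]
  | succ k ih => rw [← T.JN k, cum_J hsum k le_rfl, ih]

end cum

open Classical in
/-- the index of the cell -/
noncomputable def idx (T : Tr) (m : ℕ → ℕ → ℝ) (k : ℕ) (w : ℝ) : ℕ := Nat.findGreatest (fun i => cum m k i ≤ w) (T.N k - 1)

section idx

variable {T : Tr} {m : ℕ → ℕ → ℝ}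

theorem idx_lt (k : ℕ) (w : ℝ) : idx T m k w < T.N k := by
  classical
  have h1 : idx T m k w ≤ T.N k - 1 := Nat.findGreatest_le _
  have h2 := Npos T k
  omega

theorem idx_le (k : ℕ) {w : ℝ} (hw : 0 ≤ w) : cum m k (idx T m k w) ≤ w := by
  classical
  exact Nat.findGreatest_spec (P := fun i => cum m k i ≤ w) (m := 0) (Nat.zero_le _) (by rw [cum_zero]; exact hw)

theorem le_idx (k : ℕ) {w : ℝ} {i : ℕ} (hi : i < T.N k) (h : cum m k i ≤ w) : i ≤ idx T m k w := by
  classical
  exact Nat.le_findGreatest (P := fun i => cum m k i ≤ w) (by omega) h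

theorem lt_idx (hm0 : m 0 0 = 1) (hsum : ∀ k i, i < T.N k → ∑ j ∈ T.ch k i, m (k + 1) j = m k i) (k : ℕ) {w : ℝ}
    (hw : w < 1) : w < cum m k (idx T m k w + 1) := by
  by_contra hcon
  push Not at hcon
  have h1 := idx_lt (T := T) (m := m) k w
  rcases Nat.lt_or_ge (idx T m k w + 1) (T.N k) with h | h
  · have := le_idx (T := T) k h hcon
    omega
  · have h2 : idx T m k w + 1 = T.N k := by omega
    rw [h2, cum_top hm0 hsum] at hcon
    linarith

theorem idx_mono (k : ℕ) : Monotone (idx T m k) := by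
  classical
  intro w w' h
  exact Nat.findGreatest_mono_left (fun i hi => le_trans hi h) _

theorem idx_child (hm0 : m 0 0 = 1) (hm : ∀ k i, i < T.N k → 0 ≤ m k i)
    (hsum : ∀ k i, i < T.N k → ∑ j ∈ T.ch k i, m (k + 1) j = m k i) (k : ℕ) {w : ℝ} (hw0 : 0 ≤ w) (hw : w < 1) :
    T.J k (idx T m k w) ≤ idx T m (k + 1) w ∧ idx T m (k + 1) w < T.J k (idx T m k w + 1) := by
  have h1 := idx_lt (T := T) (m := m) k w
  constructor
  · refine le_idx (k + 1) ?_ ?_
    · exact lt_of_lt_of_le (T.Jlt k _ h1) (J_le T k h1)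
    · rw [cum_J hsum k h1.le]
      exact idx_le k hw0
  · by_contra hcon
    push Not at hcon
    have h2 := cum_mono hm (k + 1) hcon (idx_lt (k + 1) w).le
    rw [cum_J hsum k (show idx T m k w + 1 ≤ T.N k by omega)] at h2
    have h3 := lt_idx hm0 hsum k hw
    have h4 := idx_le (T := T) (m := m) (k + 1) hw0
    linarith

end idx

/-- the point with the quantile `w` -/
noncomputable def pt (T : Tr) (m : ℕ → ℕ → ℝ) (w : ℝ) : ℝ := ⨆ k, T.t k (idx T m k w)

section pt

variable {T : Tr} {m : ℕ → ℕ → ℝ}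

theorem pt_bdd (w : ℝ) : BddAbove (Set.range fun k => T.t k (idx T m k w)) := by
  refine ⟨T.t 0 1, ?_⟩
  rintro _ ⟨k, rfl⟩
  exact t_le_top T k (idx_lt k w).le

theorem pt_mono : Monotone (pt T m) := by
  intro w w' h
  exact ciSup_mono (pt_bdd w') fun k => t_mono T k (idx_mono k h) (idx_lt k w').le

theorem pt_mem (hm0 : m 0 0 = 1) (hm : ∀ k i, i < T.N k → 0 ≤ m k i)
    (hsum : ∀ k i, i < T.N k → ∑ j ∈ T.ch k i, m (k + 1) j = m k i) (k : ℕ) {w : ℝ} (hw0 : 0 ≤ w) (hw : w < 1) :
    pt T m w ∈ T.cell k (idx T m k w) := by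
  have hlo : Monotone fun k => T.t k (idx T m k w) := by
    refine monotone_nat_of_le_succ fun k => ?_
    have h1 := idx_lt (T := T) (m := m) k w
    rw [← T.ref k _ h1.le]
    exact t_mono T (k + 1) (idx_child hm0 hm hsum k hw0 hw).1 (idx_lt (k + 1) w).le
  have hhi : Antitone fun k => T.t k (idx T m k w + 1) := by
    refine antitone_nat_of_succ_le fun k => ?_
    have h1 := idx_lt (T := T) (m := m) k w
    rw [← T.ref k _ (show idx T m k w + 1 ≤ T.N k by omega)]
    exact t_mono T (k + 1) (Nat.succ_le_of_lt (idx_child hm0 hm hsum k hw0 hw).2) (J_le T k (by omega))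
  refine ⟨le_ciSup (pt_bdd w) k, ciSup_le fun k' => ?_⟩
  calc T.t k' (idx T m k' w) ≤ T.t (max k k') (idx T m (max k k') w) := hlo (le_max_right _ _)
    _ ≤ T.t (max k k') (idx T m (max k k') w + 1) := (T.lt _ _ (idx_lt _ w)).le
    _ ≤ T.t k (idx T m k w + 1) := hhi (le_max_left _ _)

end pt

end Pool.Agent.Helper18.KD
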